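import Pool.Agent.Y62.GA.Stm

/-!
# Job GA-REG: the regular part of the centraliser when no element inverts
-/

set_option linter.style.haveILetI false
set_option linter.unusedSectionVars false

open scoped Classical

namespace Pool.Agent.Y68.GA

variable {G : Type} [Group G] [Finite G]

/-- the index of `N` is a power of three -/
theorem index_pow {N : Subgroup G} {y : G} (hN : N.Normal) (hgen : N ⊔ Subgroup.zpowers y = ⊤)
    {k : ℕ} (hk : orderOf y = 3 ^ k) : N.index ∣ 3 ^ k := by
  have h1 : Subgroup.zpowers (QuotientGroup.mk' N y) = ⊤ := by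
    rw [← MonoidHom.map_zpowers]
    have h2 := congrArg (Subgroup.map (QuotientGroup.mk' N)) hgen
    rw [Subgroup.map_sup, QuotientGroup.map_mk'_self, bot_sup_eq,
      Subgroup.map_top_of_surjective _ (QuotientGroup.mk'_surjective N)] at h2
    exact h2
  have h3 : N.index = orderOf (QuotientGroup.mk' N y) := by
    rw [← Nat.card_zpowers, h1, Subgroup.card_top]
    rfl
  rw [h3, ← hk]
  exact orderOf_map_dvd _ y

/-- regular elements lie in `N` -/
theorem mem_of_regular {N : Subgroup G} {k : ℕ} (hN : N.Normal) (hi : N.index ∣ 3 ^ k)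
    {s : G} (hs : ¬ 3 ∣ orderOf s) : s ∈ N := by
  have h1 : orderOf (QuotientGroup.mk' N s) ∣ orderOf s := orderOf_map_dvd _ s
  have h2 : orderOf (QuotientGroup.mk' N s) ∣ 3 ^ k := (orderOf_dvd_natCard _).trans hi
  obtain ⟨j, _, hj⟩ := (Nat.dvd_prime_pow Nat.prime_three).mp h2
  have h3 : j = 0 := by
    by_contra h
    apply hs
    refine dvd_trans ?_ h1
    rw [hj]
    exact dvd_pow_self _ h
  rw [h3, pow_zero] at hj
  have h4 := orderOf_eq_one_iff.mp hj
  exact (QuotientGroup.eq_one_iff s).mp h4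

/-- the order of the centraliser -/
theorem card_cent {N : Subgroup G} {y : G} (hN : N.Normal) (hgen : N ⊔ Subgroup.zpowers y = ⊤) :
    Nat.card (Subgroup.centralizer ({y} : Set G)) =
      N.index * Nat.card (Subgroup.centralizer ({y} : Set G) ⊓ N : Subgroup G) := by
  set C := Subgroup.centralizer ({y} : Set G) with hC
  have hyC : y ∈ C := by
    rw [hC, Subgroup.mem_centralizer_iff]
    simp
  have h1 : N ⊔ C = ⊤ := by
    rw [eq_top_iff, ← hgen]
    exact sup_le_sup_left ((Subgroup.zpowers_le).2 hyC) N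
  have h2 : N.relIndex C = N.index := by
    rw [← Subgroup.relIndex_sup_left, h1, Subgroup.relIndex_top_right]
  have h3 := Subgroup.card_mul_index (N.subgroupOf C)
  have h4 : Nat.card (N.subgroupOf C) = Nat.card (C ⊓ N : Subgroup G) := by
    rw [← Subgroup.inf_subgroupOf_left]
    exact Nat.card_congr (Subgroup.subgroupOfEquivOfLe inf_le_left).toEquiv
  rw [h4] at h3
  rw [← h3, ← h2, mul_comm]
  rfl

/-- a central element of order three -/
theorem exists_z {N : Subgroup G} {y : G} (hN : N.Normal) (hy : ∃ k, orderOf y = 3 ^ k)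
    (h3N : 3 ∣ Nat.card N) : ∃ z, orderOf z = 3 ∧ z ∈ N ∧ Commute z y := by
  haveI := hN
  haveI : Fact (Nat.Prime 3) := ⟨Nat.prime_three⟩
  obtain ⟨k, hk⟩ := hy
  have hyp : IsPGroup 3 (Subgroup.zpowers y) := IsPGroup.of_card (n := k) (by
    rw [Nat.card_zpowers, hk])
  obtain ⟨P, hP⟩ := hyp.exists_le_sylow
  have hyP : y ∈ (P : Subgroup G) := hP (Subgroup.mem_zpowers y)
  set D : Subgroup G := (P : Subgroup G) with hDdef
  have hD : IsPGroup 3 D := P.isPGroup'
  have hDN : D ⊓ N ≠ ⊥ := by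
    intro hbot
    have h2 : N.relIndex (N ⊔ D) = N.relIndex D := Subgroup.relIndex_sup_left _ _
    have h3 := Subgroup.card_mul_index (N.subgroupOf D)
    have h4 : Nat.card (N.subgroupOf D) = Nat.card (D ⊓ N : Subgroup G) := by
      rw [← Subgroup.inf_subgroupOf_left]
      exact Nat.card_congr (Subgroup.subgroupOfEquivOfLe inf_le_left).toEquiv
    rw [h4, hbot, Subgroup.card_bot, one_mul] at h3
    have h5 := Subgroup.card_mul_index (N.subgroupOf (N ⊔ D))
    have h6 : Nat.card (N.subgroupOf (N ⊔ D)) = Nat.card N :=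
      Nat.card_congr (Subgroup.subgroupOfEquivOfLe le_sup_left).toEquiv
    have h7 : (N.subgroupOf (N ⊔ D)).index = Nat.card D := h2.trans h3
    rw [h6, h7] at h5
    have h8 : Nat.card (N ⊔ D : Subgroup G) ∣ Nat.card G := Subgroup.card_subgroup_dvd_card _
    rw [← h5] at h8
    have h9 : Nat.card D * D.index = Nat.card G := Subgroup.card_mul_index D
    rw [← h9, mul_comm (Nat.card N)] at h8
    have h10 : Nat.card N ∣ D.index := Nat.dvd_of_mul_dvd_mul_left Nat.card_pos h8
    exact P.not_dvd_index (h3N.trans h10)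
  letI : MulAction D ((D ⊓ N : Subgroup G) : Type) :=
    { smul := fun d x => ⟨(d : G) * x * (d : G)⁻¹,
        D.mul_mem (D.mul_mem d.2 x.2.1) (D.inv_mem d.2), hN.conj_mem _ x.2.2 _⟩
      one_smul := fun x => Subtype.ext (by
        change ((1 : D) : G) * (x : G) * ((1 : D) : G)⁻¹ = x
        simp)
      mul_smul := fun a b x => Subtype.ext (by
        change ((a * b : D) : G) * (x : G) * ((a * b : D) : G)⁻¹ =
          (a : G) * ((b : G) * (x : G) * (b : G)⁻¹) * (a : G)⁻¹
        rw [Subgroup.coe_mul]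
        group) }
  have hsm : ∀ (d : D) (x : (D ⊓ N : Subgroup G)), ((d • x : (D ⊓ N : Subgroup G)) : G) =
      (d : G) * x * (d : G)⁻¹ := fun _ _ => rfl
  have hDNp : IsPGroup 3 (D ⊓ N : Subgroup G) := hD.to_le inf_le_left
  have h3 : 3 ∣ Nat.card (D ⊓ N : Subgroup G) := by
    obtain ⟨k, hk⟩ := hDNp.exists_card_eq
    rw [hk]
    apply dvd_pow_self
    rintro rfl
    rw [pow_zero] at hk
    exact hDN (Subgroup.eq_bot_of_card_eq _ hk)
  have h1 : (1 : (D ⊓ N : Subgroup G)) ∈ MulAction.fixedPoints D ((D ⊓ N : Subgroup G) : Type) := by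
    intro d
    apply Subtype.ext
    rw [hsm]
    simp
  obtain ⟨b, hb, hb1⟩ := hD.exists_fixed_point_of_prime_dvd_card_of_fixed_point
    ((D ⊓ N : Subgroup G) : Type) h3 h1
  have hbN : (b : G) ∈ N := b.2.2
  have hbne : (b : G) ≠ 1 := fun h => hb1 (Subtype.ext h.symm)
  have hby : Commute (b : G) y := by
    have h4 := congrArg (fun x : (D ⊓ N : Subgroup G) => (x : G)) (hb ⟨y, hyP⟩)
    simp only [hsm] at h4
    rw [mul_inv_eq_iff_eq_mul] at h4
    exact h4.symm
  obtain ⟨j, hj⟩ : ∃ j, orderOf (b : G) = 3 ^ j := by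
    obtain ⟨k, hk⟩ := hDNp.exists_card_eq
    have h1 : orderOf (b : G) ∣ Nat.card (D ⊓ N : Subgroup G) :=
      Subgroup.orderOf_dvd_natCard _ b.2
    rw [hk] at h1
    obtain ⟨j, _, hj⟩ := (Nat.dvd_prime_pow Nat.prime_three).mp h1
    exact ⟨j, hj⟩
  have hj0 : j ≠ 0 := by
    rintro rfl
    rw [pow_zero] at hj
    exact hbne (orderOf_eq_one_iff.mp hj)
  obtain ⟨i, rfl⟩ := Nat.exists_eq_succ_of_ne_zero hj0
  refine ⟨(b : G) ^ 3 ^ i, ?_, N.pow_mem hbN _, hby.pow_left _⟩
  rw [orderOf_pow' _ (by positivity), hj]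
  rw [Nat.gcd_eq_right (pow_dvd_pow 3 (Nat.le_succ i))]
  rw [Nat.succ_eq_add_one, pow_succ, Nat.mul_div_cancel_left _ (by positivity)]

/-- a group with a Sylow 3-subgroup of order three which is central in its normaliser -/
theorem exists_compl {K : Type} [Group K] [Finite K] {z : K} (hz : orderOf z = 3)
    (hc : ∀ e : K, e * z * e⁻¹ ≠ z⁻¹) (h9 : ¬ 9 ∣ Nat.card K) :
    ∃ L : Subgroup K, (∀ s, s ∈ L ↔ ¬ 3 ∣ orderOf s) ∧ Nat.card K = 3 * Nat.card L := by
  haveI : Fact (Nat.Prime 3) := ⟨Nat.prime_three⟩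
  have hzp : IsPGroup 3 (Subgroup.zpowers z) :=
    IsPGroup.of_card (n := 1) (by rw [Nat.card_zpowers, hz, pow_one])
  have hidx : ¬ 3 ∣ (Subgroup.zpowers z).index := by
    intro h
    have h1 := Subgroup.card_mul_index (Subgroup.zpowers z)
    rw [Nat.card_zpowers, hz] at h1
    apply h9
    rw [← h1]
    obtain ⟨c, hc⟩ := h
    rw [hc]
    exact ⟨c, by ring⟩
  let P : Sylow 3 K := hzp.toSylow hidx
  have hPz : (P : Subgroup K) = Subgroup.zpowers z := IsPGroup.toSylow_coe _ _
  have hz3 : z ^ 3 = 1 := by rw [← hz]; exact pow_orderOf_eq_one z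
  have hP : Subgroup.normalizer ((P : Subgroup K) : Set K) ≤
      Subgroup.centralizer ((P : Subgroup K) : Set K) := by
    intro x hx
    rw [hPz, Subgroup.mem_normalizer_iff] at hx
    have h1 : x * z * x⁻¹ ∈ Subgroup.zpowers z := (hx z).mp (Subgroup.mem_zpowers z)
    have h2 : x * z * x⁻¹ = z := by
      rw [← mem_powers_iff_mem_zpowers, Submonoid.mem_powers_iff] at h1
      obtain ⟨n, hn⟩ := h1
      have hn' : z ^ (n % 3) = x * z * x⁻¹ := by
        rw [← hn]
        conv_rhs => rw [← Nat.mod_add_div n 3, pow_add, pow_mul, hz3, one_pow, mul_one]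
      have h3 : n % 3 < 3 := Nat.mod_lt _ (by norm_num)
      interval_cases hm : n % 3
      · exfalso
        rw [pow_zero] at hn'
        have h4 : z = 1 := by
          have h5 := hn'.symm
          rw [mul_inv_eq_iff_eq_mul, one_mul] at h5
          exact mul_left_cancel (h5.trans (mul_one x).symm)
        rw [h4, orderOf_one] at hz
        omega
      · rw [← hn', pow_one]
      · exfalso
        apply hc x
        rw [← hn', eq_inv_iff_mul_eq_one, ← pow_succ]
        exact hz3
    rw [Subgroup.mem_centralizer_iff]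
    intro u hu
    have hu' : u ∈ Subgroup.zpowers z := by rw [← hPz]; exact hu
    obtain ⟨i, rfl⟩ := Subgroup.mem_zpowers_iff.mp hu'
    have h5 : Commute z x := by
      rw [mul_inv_eq_iff_eq_mul] at h2
      exact h2.symm
    exact (h5.zpow_left i).eq
  have hcP : Nat.card P = 3 := by
    rw [hPz, Nat.card_zpowers, hz]
  refine ⟨(MonoidHom.transferSylow P hP).ker, fun s => ⟨fun hs h3 => ?_, fun hs => ?_⟩, ?_⟩
  · apply MonoidHom.not_dvd_card_ker_transferSylow P hP
    refine h3.trans ?_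
    exact Subgroup.orderOf_dvd_natCard _ hs
  · rw [MonoidHom.mem_ker]
    have h1 : orderOf (MonoidHom.transferSylow P hP s) ∣ orderOf s := orderOf_map_dvd _ s
    have h2 : orderOf (MonoidHom.transferSylow P hP s) ∣ 3 := by
      have := orderOf_dvd_natCard (MonoidHom.transferSylow P hP s)
      rwa [hcP] at this
    rcases (Nat.dvd_prime Nat.prime_three).mp h2 with h | h
    · exact orderOf_eq_one_iff.mp h
    · exfalso
      rw [h] at h1
      exact hs h1
  · have h1 := (MonoidHom.ker_transferSylow_isComplement' P hP).card_mul_card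
    rw [← h1, mul_comm]
    congr 1

theorem S_REG : Pool.Agent.Y62.GA.S_REG := by
  intro G _ _ N y hN hgen hy h3N h9 hinv
  obtain ⟨k, hk⟩ := hy
  have hidx := index_pow hN hgen hk
  obtain ⟨z, hz, hzN, hzy⟩ := exists_z hN ⟨k, hk⟩ h3N
  set M : Subgroup G := Subgroup.centralizer ({y} : Set G) ⊓ N with hM
  have hcy : ∀ x, x ∈ Subgroup.centralizer ({y} : Set G) ↔ Commute y x := by
    intro x
    rw [Subgroup.mem_centralizer_iff]
    simp only [Set.mem_singleton_iff, forall_eq]
    exact Iff.rfl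
  have hzM : z ∈ M := ⟨(hcy z).mpr hzy.symm, hzN⟩
  obtain ⟨L, hL, hcard⟩ := exists_compl (K := M) (z := ⟨z, hzM⟩)
    (by rw [← Subgroup.orderOf_coe]; exact hz) (by
      intro e he
      have h1 := congrArg Subtype.val he
      apply hinv z (e : G)⁻¹ hz hzN hzy (((hcy e).mp e.2.1).symm.inv_left)
      rw [inv_inv]
      exact h1) h9
  refine ⟨L.map M.subtype, fun s => ?_, ?_⟩
  · rw [Subgroup.mem_map]
    constructor
    · rintro ⟨x, hx, rfl⟩
      refine ⟨(hcy _).mp x.2.1, ?_⟩
      have h1 := (hL x).mp hx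
      rwa [← Subgroup.orderOf_coe] at h1
    · rintro ⟨h1, h2⟩
      have h3 : s ∈ M := ⟨(hcy s).mpr h1, mem_of_regular hN hidx h2⟩
      refine ⟨⟨s, h3⟩, (hL _).mpr ?_, rfl⟩
      rwa [← Subgroup.orderOf_coe]
  · rw [card_cent hN hgen, ← hM, hcard]
    have h1 : Nat.card (L.map M.subtype) = Nat.card L :=
      Nat.card_congr (L.equivMapOfInjective _ M.subtype_injective).symm.toEquiv
    rw [h1]
    ring

end Pool.Agent.Y68.GA
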